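import Pool.Agent.K7.H95.GMC.Lim6
import Pool.Agent.K7.H89.GMC.M6
import Pool.Agent.K7.H96.GMC.Ind
import Pool.Agent.K7.H98.GMC.Top
import Pool.Agent.K7.H98.GMC.L2
import Pool.Agent.K7.H98.GMC.Mart
import Pool.Agent.K7.H98.GMC.Arch

/-!
# Multiplicative chaos limit of the spherical ensemble Green field (MP_55470d_pr)

For every `γ ∈ (0, 2)` the random measures `M_{n,γ}` on the sphere, with density
`exp (γ L_n(g_x)) / E exp (γ L_n(g_x))` with respect to the uniform measure, converge in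
distribution, for the weak topology of finite measures, to a random finite measure, whose mean is
the uniform measure.
-/

set_option autoImplicit false

open MeasureTheory Filter Topology
open scoped ENNReal BoundedContinuousFunction

namespace Pool.Agent.Results.MP_55470d_pr.GreenChaos

noncomputable section

/-- Euclidean space `ℝ³` -/
abbrev E3 := EuclideanSpace ℝ (Fin 3)

/-- the unit sphere of `ℝ³` -/
abbrev Sph := Metric.sphere (0 : E3) 1

/-- the uniform probability measure on the sphere (normalised surface measure) -/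
def unif : Measure Sph :=
  ((volume : Measure E3).toSphere Set.univ)⁻¹ • (volume : Measure E3).toSphere

/-- the standard complex Gaussian law, with density `e^{-|w|²} / π` -/
def stdC : Measure ℂ :=
  (volume : Measure ℂ).withDensity fun w => ENNReal.ofReal (Real.exp (-‖w‖ ^ 2) / Real.pi)

/-- `n × n` complex matrices -/
abbrev Mat (n : ℕ) := Fin n → Fin n → ℂ

/-- the law of an `n × n` matrix with i.i.d. standard complex Gaussian entries -/
def gin (n : ℕ) : Measure (Mat n) := Measure.pi fun _ : Fin n => Measure.pi fun _ : Fin n => stdC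

/-- the law of the pair `(A, B)` of independent such matrices -/
def pairs (n : ℕ) : Measure (Mat n × Mat n) := (gin n).prod (gin n)

/-- the eigenvalues of `A B⁻¹`, with their multiplicities, `x = (A, B)` -/
def eig {n : ℕ} (x : Mat n × Mat n) : Multiset ℂ :=
  (Matrix.of x.1 * (Matrix.of x.2)⁻¹).charpoly.roots

lemma mem_sph (z : ℂ) : (!₂[2 * z.re / (1 + ‖z‖ ^ 2), 2 * z.im / (1 + ‖z‖ ^ 2),
    (‖z‖ ^ 2 - 1) / (1 + ‖z‖ ^ 2)] : E3) ∈ Metric.sphere (0 : E3) 1 :=
  Pool.Agent.K7.H95.GMC.Tinv_mem z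

/-- the inverse `T⁻¹ : ℂ → S²` of the stereographic projection
`T(x) = (x₁ + i x₂) / (1 - x₃)` from the north pole, see `T_Tinv` -/
def Tinv (z : ℂ) : Sph := ⟨_, mem_sph z⟩

/-- check: `T (T⁻¹ z) = z` for `T(x) = (x₁ + i x₂) / (1 - x₃)` -/
lemma T_Tinv (z : ℂ) : ((((Tinv z : E3) 0 : ℝ) : ℂ) + Complex.I * (((Tinv z : E3) 1 : ℝ) : ℂ)) /
    (1 - (((Tinv z : E3) 2 : ℝ) : ℂ)) = z := by
  have hp : (0 : ℝ) < 1 + ‖z‖ ^ 2 := by positivity
  set c : ℝ := 2 / (1 + ‖z‖ ^ 2) with hc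
  have hc0 : (c : ℂ) ≠ 0 := by
    rw [Complex.ofReal_ne_zero]; positivity
  have h0 : (Tinv z : E3) 0 = z.re * c := by
    have : (Tinv z : E3) 0 = 2 * z.re / (1 + ‖z‖ ^ 2) := rfl
    rw [this, hc]; ring
  have h1 : (Tinv z : E3) 1 = z.im * c := by
    have : (Tinv z : E3) 1 = 2 * z.im / (1 + ‖z‖ ^ 2) := rfl
    rw [this, hc]; ring
  have h2 : (Tinv z : E3) 2 = 1 - c := by
    have : (Tinv z : E3) 2 = (‖z‖ ^ 2 - 1) / (1 + ‖z‖ ^ 2) := rfl
    rw [this, hc]; field_simp; ring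
  rw [h0, h1, h2]
  have e1 : (1 : ℂ) - ((1 - c : ℝ) : ℂ) = (c : ℂ) := by push_cast; ring
  have e2 : ((z.re * c : ℝ) : ℂ) + Complex.I * ((z.im * c : ℝ) : ℂ) =
      ((z.re : ℂ) + (z.im : ℂ) * Complex.I) * (c : ℂ) := by push_cast; ring
  rw [e1, e2, Complex.re_add_im, mul_div_assoc, div_self hc0, mul_one]

/-- the linear statistic `L_n(g_u) = ∑_k log (‖u - T⁻¹(Z_k)‖ / 2)` -/
def Ln {n : ℕ} (x : Mat n × Mat n) (u : Sph) : ℝ :=
  ((eig x).map fun w => Real.log (‖(u : E3) - (Tinv w : E3)‖ / 2)).sum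

/-- the measure `M_{n,γ}`, with density `exp (γ L_n(g_u)) / E exp (γ L_n(g_u))` with respect to the
uniform probability measure -/
def chaos {n : ℕ} (γ : ℝ) (x : Mat n × Mat n) : Measure Sph :=
  unif.withDensity fun u =>
    ENNReal.ofReal (Real.exp (γ * Ln x u) / ∫ y, Real.exp (γ * Ln y u) ∂pairs n)

open Classical in
/-- `M_{n,γ}` as an element of Mathlib's space of finite measures on the sphere, with the topology
of weak convergence (`chaos γ x` is always finite, see `result`) -/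
def chaosF {n : ℕ} (γ : ℝ) (x : Mat n × Mat n) : FiniteMeasure Sph :=
  if h : IsFiniteMeasure (chaos γ x) then ⟨chaos γ x, h⟩ else 0

lemma chaos_eq {n : ℕ} (γ : ℝ) (x : Mat n × Mat n) :
    chaos γ x = Pool.Agent.K7.H95.GMC.Mn γ x := rfl

lemma chaosF_eq {n : ℕ} (γ : ℝ) (x : Mat n × Mat n) :
    chaosF γ x = Pool.Agent.K7.H95.GMC.MF γ x := rfl

lemma pairs_eq (n : ℕ) : pairs n = Pool.Agent.R923.SE.gg n := rfl

/-- For every `γ ∈ (0, 2)`, `M_{n,γ}` is a random finite measure which converges in distribution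
to a random finite measure `GMC`, of mean the uniform probability measure. -/
theorem result : ∀ γ : ℝ, 0 < γ → γ < 2 →
    (∀ (n : ℕ) (x : Mat n × Mat n), IsFiniteMeasure (chaos γ x)) ∧
    (∀ n : ℕ, @AEMeasurable _ _ (borel (FiniteMeasure Sph)) _
      (fun x : Mat n × Mat n => chaosF γ x) (pairs n)) ∧
    ∃ (Ω : Type) (_ : MeasurableSpace Ω) (P : Measure Ω) (_ : IsProbabilityMeasure P)
      (GMC : Ω → FiniteMeasure Sph),
      Measurable[_, borel (FiniteMeasure Sph)] GMC ∧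
      (∀ Φ : FiniteMeasure Sph →ᵇ ℝ,
        Tendsto (fun n : ℕ => ∫ x : Mat n × Mat n, Φ (chaosF γ x) ∂pairs n) atTop
          (𝓝 (∫ ω, Φ (GMC ω) ∂P))) ∧
      ∀ f : C(Sph, ℝ), Integrable (fun ω => ∫ u, f u ∂(GMC ω : Measure Sph)) P ∧
        ∫ ω, ∫ u, f u ∂(GMC ω : Measure Sph) ∂P = ∫ u, f u ∂unif := by
  have hC : Pool.Agent.K7.H95.GMC.S_CONV :=
    Pool.Agent.K7.H95.GMC.conv_of Pool.Agent.K7.H89.GMC.s_GEO Pool.Agent.K7.H98.GMC.Arch.s_ARCH
      Pool.Agent.K7.H98.GMC.s_TOP Pool.Agent.K7.H98.GMC.s_L2 Pool.Agent.K7.H98.GM2.s_MART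
  have h := Pool.Agent.K7.H89.GMC.main_of Pool.Agent.K7.H96.GMC.s_IND
    Pool.Agent.K7.H98.GMC.Arch.s_ARCH hC
  exact h

end

end Pool.Agent.Results.MP_55470d_pr.GreenChaos
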